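import Pool.Agent.Q96.FT.NonProj

set_option autoImplicit false

namespace Pool.Agent.Results.MP_11a8c1_an.FremlinTensor

open Q96.FT

universe u

/-- **Disproof of Q1.** There is a projective Banach lattice `X` with a topological order unit
whose Fremlin tensor product `W` with itself is not projective. -/
theorem result : ∃ (X W : Type)
    (_ : NormedAddCommGroup X) (_ : NormedSpace ℝ X) (_ : CompleteSpace X) (_ : Lattice X)
    (_ : IsOrderedAddMonoid X) (_ : IsOrderedModule ℝ X) (_ : HasSolidNorm X)
    (_ : NormedAddCommGroup W) (_ : NormedSpace ℝ W) (_ : CompleteSpace W) (_ : Lattice W)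
    (_ : IsOrderedAddMonoid W) (_ : IsOrderedModule ℝ W) (_ : HasSolidNorm W)
    (B : X →L[ℝ] X →L[ℝ] W),
    (IsProjective.{u} X ∧ ∃ e : X, IsTopOrderUnit e) ∧
    IsFremlin.{u} X X W B ∧ ¬ IsProjective.{0} W :=
  ⟨XI (ℕ → Bool), WI (ℕ → Bool), inferInstance, inferInstance, inferInstance, inferInstance,
    inferInstance, inferInstance, inferInstance, inferInstance, inferInstance, inferInstance,
    inferInstance, inferInstance, inferInstance, inferInstance, Bil,
    ⟨projective _, _, unit_X _⟩, isFremlin _, not_projective⟩

end Pool.Agent.Results.MP_11a8c1_an.FremlinTensor
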